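import Mathlib

set_option autoImplicit false

namespace Pool.Agent.Results.MP_842c30_nt.Disproof

/-- The number of decimal digits of `n`. -/
def numDigits (n : ℕ) : ℕ := (Nat.digits 10 n).length

/-- `C_r(n)`: the decimal expansion of `n` written `r` times in a row. -/
def C (r n : ℕ) : ℕ := n * ∑ i ∈ Finset.range r, 10 ^ (numDigits n * i)

/-- `N_r(n)`: the digit `1` appended to `C_r(n)`. -/
def N (r n : ℕ) : ℕ := 10 * C r n + 1

/-- The elementary facts about the family `T = 10^(6j+3)`, `259 a = 709 T + 660`,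
`259 b = 660 T + 709`. -/
lemma exists_ab (j : ℕ) : ∃ a b c : ℕ, 259 * a = 709 * 10 ^ (6 * j + 3) + 660 ∧
    259 * b = 660 * 10 ^ (6 * j + 3) + 709 ∧ a = 10 * c := by
  have h1 : (10 : ℕ) ^ (6 * j + 3) ≡ 1000 [MOD 259] := by
    have h2 : (10 : ℕ) ^ 6 ≡ 1 [MOD 259] := by decide
    calc (10 : ℕ) ^ (6 * j + 3) = (10 ^ 6) ^ j * 1000 := by rw [pow_add, pow_mul]; norm_num
      _ ≡ 1 ^ j * 1000 [MOD 259] := (h2.pow j).mul_right _
      _ = 1000 := by simp
  have h3 : (10 : ℕ) ∣ 10 ^ (6 * j + 3) := dvd_pow_self _ (by omega)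
  obtain ⟨t, ht⟩ := h3
  have h4 : (10 : ℕ) ^ (6 * j + 3) % 259 = 1000 % 259 := h1
  generalize (10 : ℕ) ^ (6 * j + 3) = T at *
  refine ⟨(709 * T + 660) / 259, (660 * T + 709) / 259, (709 * T + 660) / 259 / 10, ?_, ?_, ?_⟩ <;> omega

lemma numDigits_eq (n d : ℕ) (h1 : 10 ^ d ≤ n) (h2 : n < 10 ^ (d + 1)) : numDigits n = d + 1 := by
  unfold numDigits
  have hn : n ≠ 0 := by
    have : 0 < 10 ^ d := by positivity
    omega
  rw [Nat.length_digits 10 n (by norm_num) hn, (Nat.log_eq_iff (by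
    right; exact ⟨by norm_num, hn⟩)).2 ⟨h1, h2⟩]

/-- The main factorisation argument. -/
lemma key (T a b n r : ℕ) (hT : 10 ≤ T) (ha : 259 * a = 709 * T + 660)
    (hb : 259 * b = 660 * T + 709) (hn : 10 * n = a ^ 2)
    (hr : 1 ≤ r) (P : ℕ)
    (hP : P = 10 * (n * ∑ i ∈ Finset.range r, (T ^ 2) ^ i) + 1) : ¬ P.Prime := by
  intro hprime
  -- geometric sum
  have hgeom : ((T : ℤ) ^ 2 - 1) * ∑ i ∈ Finset.range r, ((T : ℤ) ^ 2) ^ i = ((T : ℤ) ^ 2) ^ r - 1 := by
    rw [mul_comm]; exact geom_sum_mul ((T : ℤ) ^ 2) r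
  have haZ : (259 : ℤ) * a = 709 * T + 660 := by exact_mod_cast ha
  have hbZ : (259 : ℤ) * b = 660 * T + 709 := by exact_mod_cast hb
  have hnZ : (10 : ℤ) * n = a ^ 2 := by exact_mod_cast hn
  have hPZ : (P : ℤ) = 10 * (n * ∑ i ∈ Finset.range r, ((T : ℤ) ^ 2) ^ i) + 1 := by
    rw [hP]; push_cast; ring
  have hab : (a : ℤ) ^ 2 - b ^ 2 = T ^ 2 - 1 := by nlinarith
  have hfac : (P : ℤ) * ((T : ℤ) ^ 2 - 1) = (a * T ^ r - b) * (a * T ^ r + b) := by
    have e1 : (P : ℤ) * ((T : ℤ) ^ 2 - 1)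
        = (10 * n) * (((T : ℤ) ^ 2 - 1) * ∑ i ∈ Finset.range r, ((T : ℤ) ^ 2) ^ i) + (T ^ 2 - 1) := by
      rw [hPZ]; ring
    rw [e1, hgeom, hnZ]
    have e2 : ((T : ℤ) ^ 2) ^ r = (T ^ r) ^ 2 := by rw [← pow_mul, ← pow_mul, mul_comm]
    rw [e2]
    linear_combination -hab
  have hTZ : (10 : ℤ) ≤ T := by exact_mod_cast hT
  have haT : (259 : ℤ) * (a * T - b) = 709 * (T ^ 2 - 1) := by
    linear_combination (T : ℤ) * haZ - hbZ
  have hTr : (T : ℤ) ≤ (T : ℤ) ^ r := by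
    calc (T : ℤ) = (T : ℤ) ^ 1 := by ring
      _ ≤ (T : ℤ) ^ r := pow_le_pow_right₀ (by linarith) hr
  have ha0 : (0 : ℤ) ≤ a := by positivity
  have hb0 : (0 : ℤ) ≤ b := by positivity
  have hmono : (a : ℤ) * T ≤ a * T ^ r := mul_le_mul_of_nonneg_left hTr ha0
  have hX : (0 : ℤ) < (T : ℤ) ^ 2 - 1 := by nlinarith
  have hlo : (T : ℤ) ^ 2 - 1 < a * T ^ r - b := by linarith
  have hhi : (T : ℤ) ^ 2 - 1 < a * T ^ r + b := by linarith
  have hPprime : Prime (P : ℤ) := Nat.prime_iff_prime_int.mp hprime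
  have hPpos : (0 : ℤ) < P := by exact_mod_cast hprime.pos
  have hdvd : (P : ℤ) ∣ (a * T ^ r - b) * (a * T ^ r + b) := ⟨_, hfac.symm⟩
  rcases hPprime.dvd_or_dvd hdvd with ⟨c, hc⟩ | ⟨c, hc⟩
  · rw [hc] at hfac
    have h1 : (T : ℤ) ^ 2 - 1 = c * (a * T ^ r + b) := by
      have : (P : ℤ) * ((T : ℤ) ^ 2 - 1) = P * (c * (a * T ^ r + b)) := by rw [hfac]; ring
      exact mul_left_cancel₀ hPpos.ne' this
    have hc0 : 0 < c := by
      by_contra hcon
      push Not at hcon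
      have : (P : ℤ) * c ≤ 0 := mul_nonpos_of_nonneg_of_nonpos hPpos.le hcon
      linarith
    nlinarith
  · rw [hc] at hfac
    have h1 : (T : ℤ) ^ 2 - 1 = c * (a * T ^ r - b) := by
      have : (P : ℤ) * ((T : ℤ) ^ 2 - 1) = P * (c * (a * T ^ r - b)) := by rw [hfac]; ring
      exact mul_left_cancel₀ hPpos.ne' this
    have hc0 : 0 < c := by
      by_contra hcon
      push Not at hcon
      have : (P : ℤ) * c ≤ 0 := mul_nonpos_of_nonneg_of_nonpos hPpos.le hcon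
      linarith
    nlinarith

/-- The number of digits of an `r`-fold repetition. -/
lemma numDigits_C (j m : ℕ) (hj : 1 ≤ j) (hm : 0 < m) :
    numDigits (C j m) = numDigits m * j ∧
      C j m * (10 ^ numDigits m - 1) = m * (10 ^ (numDigits m * j) - 1) := by
  set e := numDigits m with he
  have he1 : 1 ≤ e := by
    rw [he, numDigits]
    rcases Nat.eq_zero_or_pos (Nat.digits 10 m).length with h | h
    · rw [List.length_eq_zero_iff, Nat.digits_eq_nil_iff_eq_zero] at h; omega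
    · exact h
  have hlt : m < 10 ^ e := Nat.lt_base_pow_length_digits (by norm_num)
  have hge : 10 ^ (e - 1) ≤ m := by
    have h1 := Nat.base_pow_length_digits_le 10 m (by norm_num) (by omega : m ≠ 0)
    have h2 : 10 ^ (Nat.digits 10 m).length = 10 * 10 ^ (e - 1) := by
      rw [← pow_succ']; congr 1; rw [he, numDigits] at *; omega
    omega
  have hgeom : (∑ i ∈ Finset.range j, 10 ^ (e * i)) * (10 ^ e - 1) = 10 ^ (e * j) - 1 := by
    have h1 := Nat.geomSum_eq (m := 10 ^ e) (by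
      calc 2 ≤ 10 ^ 1 := by norm_num
        _ ≤ 10 ^ e := Nat.pow_le_pow_right (by norm_num) he1) j
    have h2 : ∑ i ∈ Finset.range j, 10 ^ (e * i) = ∑ i ∈ Finset.range j, (10 ^ e) ^ i := by
      apply Finset.sum_congr rfl; intro i _; rw [← pow_mul]
    have h3 : 10 ^ e - 1 ∣ (10 ^ e) ^ j - 1 := by
      simpa using Nat.sub_dvd_pow_sub_pow (10 ^ e) 1 j
    rw [h2, h1, Nat.div_mul_cancel h3, pow_mul]
  have hC : C j m * (10 ^ e - 1) = m * (10 ^ (e * j) - 1) := by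
    rw [C, ← he, mul_assoc, hgeom]
  refine ⟨?_, hC⟩
  have hpos : 0 < 10 ^ e - 1 := by
    have : 10 ^ 1 ≤ 10 ^ e := Nat.pow_le_pow_right (by norm_num) he1
    omega
  have hup : C j m < 10 ^ (e * j) := by
    have h1 : C j m * (10 ^ e - 1) ≤ (10 ^ e - 1) * (10 ^ (e * j) - 1) := by
      rw [hC]; exact Nat.mul_le_mul_right _ (by omega)
    have h2 : C j m ≤ 10 ^ (e * j) - 1 := by
      rw [mul_comm (10 ^ e - 1)] at h1
      exact Nat.le_of_mul_le_mul_right h1 hpos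
    have h3 : 0 < 10 ^ (e * j) := by positivity
    omega
  have hlo : 10 ^ (e * j - 1) ≤ C j m := by
    have h1 : 10 ^ (e * (j - 1)) ≤ ∑ i ∈ Finset.range j, 10 ^ (e * i) :=
      Finset.single_le_sum (f := fun i => 10 ^ (e * i)) (fun i _ => Nat.zero_le _)
        (Finset.mem_range.2 (by omega))
    calc 10 ^ (e * j - 1) = 10 ^ (e - 1) * 10 ^ (e * (j - 1)) := by
          rw [← pow_add]; congr 1
          obtain ⟨j', rfl⟩ := Nat.exists_eq_add_of_le hj
          rw [Nat.add_sub_cancel_left, mul_add]; omega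
      _ ≤ m * ∑ i ∈ Finset.range j, 10 ^ (e * i) := Nat.mul_le_mul hge h1
      _ = C j m := by rw [C, ← he]
  have hej : 1 ≤ e * j := Nat.one_le_iff_ne_zero.2 (by positivity)
  have := numDigits_eq (C j m) (e * j - 1) hlo (by rw [Nat.sub_add_cancel hej]; exact hup)
  rw [this, Nat.sub_add_cancel hej]

/-- For every `j ≥ 1` there is a counterexample of `12 j + 6` digits which is not a repetition of
a shorter block of digits. -/
lemma exists_counterexample (j : ℕ) (hj : 1 ≤ j) : ∃ n : ℕ, 10 ^ (12 * j + 5) < n ∧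
    n < 10 ^ (12 * j + 6) ∧ (∀ r : ℕ, 1 ≤ r → ¬ (N r n).Prime) ∧
    ∀ l m : ℕ, 2 ≤ l → n ≠ C l m := by
  obtain ⟨a, b, c, ha, hb, hc⟩ := exists_ab j
  set T : ℕ := 10 ^ (6 * j + 3) with hTdef
  have hT : 10 ≤ T := by
    calc 10 = 10 ^ 1 := by norm_num
      _ ≤ T := Nat.pow_le_pow_right (by norm_num) (by omega)
  have hTbig : 10 ^ 9 ≤ T := Nat.pow_le_pow_right (by norm_num) (by omega)
  have hT2 : T ^ 2 = 10 ^ (12 * j + 6) := by rw [hTdef, ← pow_mul]; ring_nf
  have hT2' : T ^ 2 = 10 * 10 ^ (12 * j + 5) := by rw [hT2]; ring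
  have hn : 10 * (10 * c ^ 2) = a ^ 2 := by rw [hc]; ring
  have hlo : T ^ 2 < a ^ 2 := by
    have : T < a := by omega
    exact Nat.pow_lt_pow_left this (by norm_num)
  have hhi : a ^ 2 < 10 * T ^ 2 := by
    have : a < 3 * T := by omega
    nlinarith
  have hd : numDigits (10 * c ^ 2) = 12 * j + 6 := by
    apply numDigits_eq _ (12 * j + 5)
    · omega
    · have : (10 : ℕ) ^ (12 * j + 5 + 1) = T ^ 2 := by rw [hT2]
      omega
  refine ⟨10 * c ^ 2, by omega, by omega, ?_, ?_⟩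
  · intro r hr
    apply key T a b (10 * c ^ 2) r hT ha hb hn hr
    unfold N C
    rw [hd]
    congr 3
    apply Finset.sum_congr rfl
    intro i _
    rw [hT2, ← pow_mul]
  · intro l m hl hnC
    have hm : 0 < m := by
      rcases Nat.eq_zero_or_pos m with h | h
      · rw [h] at hnC; simp only [C, zero_mul] at hnC; omega
      · exact h
    obtain ⟨h1, h2⟩ := numDigits_C l m (by omega) hm
    rw [← hnC, hd] at h1
    rw [← hnC, ← h1, ← hT2] at h2
    set e := numDigits m with he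
    -- `259 * M' = T ^ 2 - 1`
    have hdvd259 : (259 : ℤ) ∣ (T : ℤ) ^ 2 - 1 := by
      have haZ : (259 : ℤ) * a = 709 * T + 660 := by exact_mod_cast ha
      -- `(709 T + 660) (709 T - 660) = 709 ^ 2 (T ^ 2 - 1) + 259 ^ 2`
      have h3 : (259 : ℤ) ∣ 709 ^ 2 * ((T : ℤ) ^ 2 - 1) :=
        ⟨a * (709 * T - 660) - 259, by linear_combination (-(709 * (T : ℤ) - 660)) * haZ⟩
      have h4 : IsCoprime (259 : ℤ) (709 ^ 2) := by norm_num
      exact h4.dvd_of_dvd_mul_left h3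
    obtain ⟨M, hM⟩ := hdvd259
    have haZ : (259 : ℤ) * a = 709 * T + 660 := by exact_mod_cast ha
    have haw : (a : ℤ) * (709 * T - 660) = 709 ^ 2 * M + 259 := by
      have : (259 : ℤ) * (a * (709 * T - 660)) = 259 * (709 ^ 2 * M + 259) := by
        linear_combination (709 * (T : ℤ) - 660) * haZ + 709 ^ 2 * hM
      exact mul_left_cancel₀ (by norm_num) this
    have hnZ : (10 : ℤ) * (10 * c ^ 2 : ℕ) = a ^ 2 := by exact_mod_cast hn
    have hrel : ((10 * c ^ 2 : ℕ) : ℤ) * (10 ^ e - 1) = m * (T ^ 2 - 1) := by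
      have h5 : 1 ≤ 10 ^ e := Nat.one_le_pow _ _ (by norm_num)
      have h6 : 1 ≤ T ^ 2 := Nat.one_le_pow _ _ (by omega)
      have := congrArg (fun z : ℕ => (z : ℤ)) h2
      simp only [Nat.cast_mul, Nat.cast_sub h5, Nat.cast_sub h6] at this
      push_cast at this ⊢
      exact this
    have hMdvd : M ∣ 259 ^ 2 * (10 ^ e - 1) := by
      have h7 : (a : ℤ) ^ 2 * (10 ^ e - 1) = 10 * m * (259 * M) := by
        rw [← hnZ, ← hM]; linear_combination (10 : ℤ) * hrel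
      have h8 : ((a : ℤ) * (709 * T - 660)) ^ 2 * (10 ^ e - 1)
          = M * ((709 * T - 660) ^ 2 * (10 * m * 259)) := by
        linear_combination (709 * (T : ℤ) - 660) ^ 2 * h7
      rw [haw] at h8
      refine ⟨(709 * T - 660) ^ 2 * (10 * m * 259) - (709 ^ 4 * M + 2 * 709 ^ 2 * 259)
        * (10 ^ e - 1), ?_⟩
      linear_combination h8
    have h2e : 2 * e ≤ 12 * j + 6 := by
      rw [h1, mul_comm]; exact Nat.mul_le_mul_left _ hl
    have he1 : 1 ≤ e := by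
      rcases Nat.eq_zero_or_pos e with h | h
      · rw [h] at h1; omega
      · exact h
    have hTe : (10 : ℤ) ^ e ≤ T := by
      have : 10 ^ e ≤ T := Nat.pow_le_pow_right (by norm_num) (by omega)
      exact_mod_cast this
    have h10 : (10 : ℤ) ≤ 10 ^ e := by
      have : 10 ^ 1 ≤ 10 ^ e := Nat.pow_le_pow_right (by norm_num) he1
      exact_mod_cast this
    have hle := Int.le_of_dvd (by nlinarith) hMdvd
    have hTZ : (10 : ℤ) ^ 9 ≤ T := by exact_mod_cast hTbig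
    nlinarith

/-- There are infinitely many positive integers `n`, none of them a power of ten and none of them
a repetition of a shorter block of digits, such that `N_r(n)` is not prime for every `r ≥ 1`. -/
theorem result :
    {n : ℕ | 0 < n ∧ (¬ ∃ m : ℕ, n = 10 ^ m) ∧ (¬ ∃ l m : ℕ, 2 ≤ l ∧ n = C l m) ∧
      ∀ r : ℕ, 1 ≤ r → ¬ (N r n).Prime}.Infinite := by
  apply Set.infinite_of_not_bddAbove
  rintro ⟨B, hB⟩
  obtain ⟨n, h1, h2, h3, h4⟩ := exists_counterexample (B + 1) (by omega)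
  have hmem : n ∈ {n : ℕ | 0 < n ∧ (¬ ∃ m : ℕ, n = 10 ^ m) ∧ (¬ ∃ l m : ℕ, 2 ≤ l ∧ n = C l m) ∧
      ∀ r : ℕ, 1 ≤ r → ¬ (N r n).Prime} := by
    refine ⟨lt_of_le_of_lt (Nat.zero_le _) h1, ?_, ?_, h3⟩
    · rintro ⟨m, rfl⟩
      have e1 := (Nat.pow_lt_pow_iff_right (by norm_num : 1 < 10)).1 h1
      have e2 := (Nat.pow_lt_pow_iff_right (by norm_num : 1 < 10)).1 h2
      omega
    · rintro ⟨l, m, hl, hlm⟩
      exact h4 l m hl hlm
  have hle := hB hmem
  have : B < 10 ^ (12 * (B + 1) + 5) := by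
    calc B < 2 ^ B := Nat.lt_two_pow_self
      _ ≤ 10 ^ B := Nat.pow_le_pow_left (by norm_num) _
      _ ≤ 10 ^ (12 * (B + 1) + 5) := Nat.pow_le_pow_right (by norm_num) (by omega)
  omega

end Pool.Agent.Results.MP_842c30_nt.Disproof
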